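import Pool.Agent.Helper92.MM.Defs
import Pool.Agent.Helper22.AD.BM

/-!
# MM, block M8 (MP_fb29e9_nt): measurability of the set of the series with bounded moments

`cntc_joint`: the number of lattice points is jointly measurable in the series and the radius. `momq_meas`: the moment over the rational
centres is a measurable function of the series. `mom_meas_of` from `mom_rat` (given as a hypothesis).
-/

open MeasureTheory Real Set Filter Topology unitInterval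

set_option autoImplicit false

namespace Pool.Agent.Helper88.MM

open Pool.Agent.Helper22.AE
open Pool.Agent.Helper22.AC (cntc)
open Pool.Agent.Helper22.AD (rho_meas)
open Pool.Agent.Helper92.MM (mom momq)

private lemma bound88 {F : (ℕ → I × I) × ℝ → ℝ} (hF : Continuous F)
    (hp : ∀ x θ, F (x, θ + 2 * π) = F (x, θ)) : ∃ N : ℕ, ∀ x θ, |F (x, θ)| ≤ N := by
  obtain ⟨C, hC⟩ := (isCompact_univ.prod isCompact_Icc :
    IsCompact ((univ : Set (ℕ → I × I)) ×ˢ Icc (0 : ℝ) (2 * π))).exists_bound_of_continuousOn hF.continuousOn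
  obtain ⟨N, hN⟩ := exists_nat_ge C
  refine ⟨N, fun x θ => ?_⟩
  have hper : Function.Periodic (fun θ => F (x, θ)) (2 * π) := fun θ => hp x θ
  obtain ⟨y, hy, hy'⟩ := hper.exists_mem_Ico₀ (by positivity) θ
  rw [hy']
  have := hC (x, y) ⟨mem_univ _, hy.1, hy.2.le⟩
  rw [Real.norm_eq_abs] at this
  exact this.trans hN

private lemma box88 {G : ℝ → ℝ} {N : ℕ} (hG : ∀ θ, |G θ| ≤ N) {k : ℤ × ℤ}
    (hk : ∀ θ : ℝ, (k.1 : ℝ) * cos θ + (k.2 : ℝ) * sin θ ≤ G θ) : k ∈ box N := by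
  have a1 := (hk 0).trans ((le_abs_self _).trans (hG 0))
  have a2 := (hk π).trans ((le_abs_self _).trans (hG π))
  have a3 := (hk (π / 2)).trans ((le_abs_self _).trans (hG (π / 2)))
  have a4 := (hk (-(π / 2))).trans ((le_abs_self _).trans (hG (-(π / 2))))
  simp only [cos_zero, sin_zero, mul_one, mul_zero, add_zero, zero_add, cos_pi, sin_pi, cos_pi_div_two,
    sin_pi_div_two, cos_neg, sin_neg, mul_neg] at a1 a2 a3 a4
  simp only [box, Finset.mem_product, Finset.mem_Icc]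
  refine ⟨⟨?_, ?_⟩, ?_, ?_⟩
  · have : -(N : ℝ) ≤ (k.1 : ℝ) := by linarith
    exact_mod_cast this
  · exact_mod_cast a1
  · have : -(N : ℝ) ≤ (k.2 : ℝ) := by linarith
    exact_mod_cast this
  · exact_mod_cast a3

open Classical in
/-- the number of lattice points is jointly measurable -/
theorem cntc_joint {H₀ : ℝ → ℝ} (h0 : ContDiff ℝ 2 H₀) (hp : Function.Periodic H₀ (2 * π)) {s : ℕ → ℝ}
    (hs : Summable (fun l : ℕ => (l : ℝ) ^ 2 * |s l|)) (c : ℝ × ℝ) :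
    Measurable (fun q : (ℕ → I × I) × ℝ => cntc (Hx H₀ s q.1) c q.2) := by
  have hcont := Hx_cont h0 hs
  have hmeas : ∀ N : ℕ, Measurable (fun q : (ℕ → I × I) × ℝ => ∑ k ∈ box N,
      (if (∀ θ : ℝ, ((k.1 : ℝ) - c.1) * cos θ + ((k.2 : ℝ) - c.2) * sin θ ≤ q.2 * Hx H₀ s q.1 θ) then (1 : ℝ) else 0)) := by
    intro N
    refine Finset.measurable_fun_sum _ fun k _ => ?_
    refine Measurable.ite ?_ measurable_const measurable_const
    have hc : {q : (ℕ → I × I) × ℝ | ∀ θ : ℝ, ((k.1 : ℝ) - c.1) * cos θ + ((k.2 : ℝ) - c.2) * sin θ ≤ q.2 * Hx H₀ s q.1 θ} =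
        ⋂ θ : ℝ, {q : (ℕ → I × I) × ℝ | ((k.1 : ℝ) - c.1) * cos θ + ((k.2 : ℝ) - c.2) * sin θ ≤ q.2 * Hx H₀ s q.1 θ} := by
      ext q
      simp
    rw [hc]
    refine (isClosed_iInter fun θ => ?_).measurableSet
    refine isClosed_le continuous_const (continuous_snd.mul ?_)
    exact hcont.comp (continuous_fst.prodMk continuous_const)
  refine measurable_of_tendsto_metrizable hmeas ?_
  rw [tendsto_pi_nhds]
  rintro ⟨x, R⟩
  have hF : Continuous (fun q : (ℕ → I × I) × ℝ => R * Hx H₀ s q.1 q.2 + (c.1 * cos q.2 + c.2 * sin q.2)) := by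
    refine (continuous_const.mul hcont).add ?_
    fun_prop
  obtain ⟨N₀, hN₀⟩ := bound88 hF (fun x θ => by
      have := Hx_per hp s x θ
      simp only
      rw [this, cos_add_two_pi, sin_add_two_pi])
  simp only at hN₀
  refine tendsto_const_nhds.congr' ?_
  filter_upwards [eventually_ge_atTop N₀] with N hN
  have hNN : ∀ θ, |R * Hx H₀ s x θ + (c.1 * cos θ + c.2 * sin θ)| ≤ N := fun θ => (hN₀ x θ).trans (by exact_mod_cast hN)
  have hiff : ∀ k : ℤ × ℤ,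
      (∀ θ : ℝ, ((k.1 : ℝ) - c.1) * cos θ + ((k.2 : ℝ) - c.2) * sin θ ≤ R * Hx H₀ s x θ) ↔
      (∀ θ : ℝ, (k.1 : ℝ) * cos θ + (k.2 : ℝ) * sin θ ≤ R * Hx H₀ s x θ + (c.1 * cos θ + c.2 * sin θ)) := by
    intro k
    refine forall_congr' fun θ => ?_
    constructor <;> intro h <;> linarith
  show cntc (Hx H₀ s x) c R = ∑ k ∈ box N,
      (if (∀ θ : ℝ, ((k.1 : ℝ) - c.1) * cos θ + ((k.2 : ℝ) - c.2) * sin θ ≤ R * Hx H₀ s x θ) then (1 : ℝ) else 0)
  unfold cntc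
  rw [Nat.subtype_card ((box N).filter fun k : ℤ × ℤ =>
    ∀ θ : ℝ, ((k.1 : ℝ) - c.1) * cos θ + ((k.2 : ℝ) - c.2) * sin θ ≤ R * Hx H₀ s x θ)]
  · rw [Finset.sum_boole]
  · intro k
    rw [Finset.mem_filter]
    exact ⟨fun h => h.2, fun h => ⟨box88 (G := fun θ => R * Hx H₀ s x θ + (c.1 * cos θ + c.2 * sin θ)) hNN
      ((hiff k).1 h), h⟩⟩

/-- the moment over the rational centres is a measurable function of the series -/
theorem momq_meas (J : ℕ) {H₀ : ℝ → ℝ} (h0 : ContDiff ℝ 2 H₀) (hp : Function.Periodic H₀ (2 * π)) {s : ℕ → ℝ}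
    (hs : Summable (fun l : ℕ => (l : ℝ) ^ 2 * |s l|)) (X : ℝ) :
    Measurable (fun x : ℕ → I × I => momq J (Hx H₀ s x) X) := by
  unfold momq
  refine Measurable.lintegral_prod_right' (f := fun q : (ℕ → I × I) × ℝ => ⨆ c : ℚ × ℚ,
    ENNReal.ofReal (|cntc (Hx H₀ s q.1) ((c.1 : ℝ), (c.2 : ℝ)) q.2 - area (Hx H₀ s q.1) * q.2 ^ 2| ^ (2 * J))) ?_
  refine Measurable.iSup fun c => ?_
  refine ENNReal.measurable_ofReal.comp ((continuous_abs.measurable.comp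
    ((cntc_joint h0 hp hs _).sub (((area_meas h0 hs).comp measurable_fst).mul (measurable_snd.pow_const 2)))).pow_const _)

theorem mom_meas_of {J : ℕ}
    (rat : ∀ {H : ℝ → ℝ}, ContDiff ℝ 2 H → Function.Periodic H (2 * π) → (∀ θ, 0 < H θ + deriv (deriv H) θ) →
      ((∃ C : ℝ, ∀ X : ℝ, 1 ≤ X → mom J H X ≤ ENNReal.ofReal (C * X ^ (1 + J))) ↔
      (∃ C : ℕ, ∀ N : ℕ, momq J H (2 ^ N) ≤ ENNReal.ofReal (C * ((2 : ℝ) ^ N) ^ (1 + J)))))
    {H₀ : ℝ → ℝ} (h0 : ContDiff ℝ 2 H₀) (hp : Function.Periodic H₀ (2 * π)) {s : ℕ → ℝ}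
    (hs : Summable (fun l : ℕ => (l : ℝ) ^ 2 * |s l|)) :
    MeasurableSet {x : ℕ → I × I | (∀ θ, 0 < Hx H₀ s x θ + deriv (deriv (Hx H₀ s x)) θ) →
      ∃ C : ℝ, ∀ X : ℝ, 1 ≤ X → mom J (Hx H₀ s x) X ≤ ENNReal.ofReal (C * X ^ (1 + J))} := by
  have hS := rho_meas h0 hp hs
  have hB : MeasurableSet {x : ℕ → I × I | ∃ C : ℕ, ∀ N : ℕ,
      momq J (Hx H₀ s x) (2 ^ N) ≤ ENNReal.ofReal (C * ((2 : ℝ) ^ N) ^ (1 + J))} := by
    have hset : {x : ℕ → I × I | ∃ C : ℕ, ∀ N : ℕ,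
        momq J (Hx H₀ s x) (2 ^ N) ≤ ENNReal.ofReal (C * ((2 : ℝ) ^ N) ^ (1 + J))} =
        ⋃ C : ℕ, ⋂ N : ℕ, {x : ℕ → I × I | momq J (Hx H₀ s x) (2 ^ N) ≤ ENNReal.ofReal (C * ((2 : ℝ) ^ N) ^ (1 + J))} := by
      ext x
      simp only [mem_ofPred_eq, mem_iUnion, mem_iInter]
    rw [hset]
    exact MeasurableSet.iUnion fun C => MeasurableSet.iInter fun N => measurableSet_le (momq_meas J h0 hp hs _) measurable_const
  have hset : {x : ℕ → I × I | (∀ θ, 0 < Hx H₀ s x θ + deriv (deriv (Hx H₀ s x)) θ) →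
      ∃ C : ℝ, ∀ X : ℝ, 1 ≤ X → mom J (Hx H₀ s x) X ≤ ENNReal.ofReal (C * X ^ (1 + J))} =
      {x : ℕ → I × I | ∀ θ, 0 < Hx H₀ s x θ + deriv (deriv (Hx H₀ s x)) θ}ᶜ ∪
      {x : ℕ → I × I | ∃ C : ℕ, ∀ N : ℕ, momq J (Hx H₀ s x) (2 ^ N) ≤ ENNReal.ofReal (C * ((2 : ℝ) ^ N) ^ (1 + J))} := by
    ext x
    by_cases hx : ∀ θ, 0 < Hx H₀ s x θ + deriv (deriv (Hx H₀ s x)) θ
    · have h1 := rat (Hx_smooth h0 hs x) (Hx_per hp s x) hx
      constructor
      · intro h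
        exact Or.inr (h1.1 (h hx))
      · rintro (h | h)
        · exact absurd hx h
        · exact fun _ => h1.2 h
    · constructor
      · intro _
        exact Or.inl hx
      · intro _ h
        exact absurd h hx
  rw [hset]
  exact hS.compl.union hB

end Pool.Agent.Helper88.MM
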